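import Pool.Agent.H82.RP.TB
import Pool.Agent.H23.MTP.IV

/-!
# Row IVI of the board `rpw_modules`: Moebius inversion on tuples
-/

set_option autoImplicit false

open Finset Real ArithmeticFunction
open scoped Nat ArithmeticFunction.Moebius ArithmeticFunction.zeta

namespace Pool.Agent.H20.RP

open Pool.Agent.H31.MP (RS)
open Pool.Agent.H82.RP
open Pool.Agent.H23.MTP (iv_rs iv_dvd iv_mu)

theorem ivi_prod {I : Type} [Fintype I] [DecidableEq I] (P : I → Prop) [∀ i, Decidable (P i)] [Decidable (∀ i, P i)]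
    (f : I → ℝ) : ∏ i, (if P i then f i else 0) = if ∀ i, P i then ∏ i, f i else 0 := by
  classical
  by_cases h : ∀ i, P i
  · rw [if_pos h]
    exact Finset.prod_congr rfl fun i _ => if_pos (h i)
  · rw [if_neg h]
    push Not at h
    obtain ⟨i, hi⟩ := h
    exact Finset.prod_eq_zero (mem_univ i) (if_neg hi)

/-- the exchange of the summations, with a condition on every coordinate -/
theorem ivi_ex (I : Type) [Fintype I] [DecidableEq I] (z Y : ℝ) (y : (I → ℕ) → ℝ)
    (Q : I → ℕ → Prop)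
    [∀ i a, Decidable (Q i a)] [∀ d : I → ℕ, Decidable (∀ i, Q i (d i))] :
    ∑ d ∈ BG I z Y, (if ∀ i, Q i (d i) then lG z Y y d / ∏ i, (d i : ℝ) else 0) =
      ∑ s ∈ BG I z Y, (y s / ∏ i, ((s i).totient : ℝ)) *
        ∏ i, ∑ a ∈ RS z Y, (if Q i a ∧ a ∣ s i then ((μ a : ℤ) : ℝ) else 0) := by
  classical
  have e1 : ∀ d ∈ BG I z Y, (if ∀ i, Q i (d i) then lG z Y y d / ∏ i, (d i : ℝ) else 0) =
      ∑ s ∈ BG I z Y, (y s / ∏ i, ((s i).totient : ℝ)) *
        ∏ i, (if Q i (d i) ∧ d i ∣ s i then ((μ (d i) : ℤ) : ℝ) else 0) := by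
    intro d hd
    have hd0 : ∏ i, (d i : ℝ) ≠ 0 := by
      rw [Finset.prod_ne_zero_iff]
      intro i _
      have e2 := iv_rs.1 (Fintype.mem_piFinset.1 hd i)
      have e3 : d i ≠ 0 := by omega
      exact_mod_cast e3
    have e4 : ∀ s : I → ℕ, ∏ i, (if Q i (d i) ∧ d i ∣ s i then ((μ (d i) : ℤ) : ℝ) else 0) =
        if ∀ i, Q i (d i) ∧ d i ∣ s i then ∏ i, ((μ (d i) : ℤ) : ℝ) else 0 := fun s =>
      ivi_prod _ _
    simp only [e4]
    by_cases hQ : ∀ i, Q i (d i)
    · rw [if_pos hQ]
      unfold lG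
      rw [Finset.prod_mul_distrib]
      have e5 : (∏ i, ((μ (d i) : ℤ) : ℝ)) * (∏ i, (d i : ℝ)) *
          (∑ r ∈ BG I z Y, if ∀ i, d i ∣ r i then y r / ∏ i, ((r i).totient : ℝ) else 0) /
          ∏ i, (d i : ℝ) = (∏ i, ((μ (d i) : ℤ) : ℝ)) *
          (∑ r ∈ BG I z Y, if ∀ i, d i ∣ r i then y r / ∏ i, ((r i).totient : ℝ) else 0) := by
        field_simp
      rw [e5, Finset.mul_sum]
      refine Finset.sum_congr rfl fun s _ => ?_
      by_cases h : ∀ i, d i ∣ s i
      · rw [if_pos h, if_pos fun i => ⟨hQ i, h i⟩, mul_comm]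
      · rw [if_neg h, if_neg fun h' => h fun i => (h' i).2, mul_zero, mul_zero]
    · rw [if_neg hQ]
      symm
      apply Finset.sum_eq_zero
      intro s _
      rw [if_neg fun h => hQ fun i => (h i).1, mul_zero]
  rw [Finset.sum_congr rfl e1, Finset.sum_comm]
  refine Finset.sum_congr rfl fun s _ => ?_
  rw [← Finset.mul_sum]
  congr 1
  rw [Finset.prod_univ_sum]
  rfl

theorem pf_IVI : T_IVI := by
  classical
  intro I _ _ z Y y r hr
  have hrR : ∀ i, r i ∈ RS z Y := fun i => Fintype.mem_piFinset.1 hr i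
  refine ⟨?_, ?_⟩
  · rw [ivi_ex I z Y y (fun i a => r i ∣ a)]
    have e1 : ∀ s ∈ BG I z Y, (y s / ∏ i, ((s i).totient : ℝ)) *
        ∏ i, ∑ a ∈ RS z Y, (if r i ∣ a ∧ a ∣ s i then ((μ a : ℤ) : ℝ) else 0) =
        if s = r then (∏ i, ((μ (r i) : ℤ) : ℝ)) * (y r / ∏ i, ((r i).totient : ℝ)) else 0 := by
      intro s hs
      have e2 : ∏ i, ∑ a ∈ RS z Y, (if r i ∣ a ∧ a ∣ s i then ((μ a : ℤ) : ℝ) else 0) =
          ∏ i, (if s i = r i then ((μ (r i) : ℤ) : ℝ) else 0) :=
        Finset.prod_congr rfl fun i _ => iv_mu z Y (r i) (s i) (Fintype.mem_piFinset.1 hs i)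
      rw [e2, ivi_prod]
      by_cases h : s = r
      · rw [if_pos h, if_pos fun i => congrFun h i, h, mul_comm]
      · rw [if_neg h, if_neg fun h' => h (funext h'), mul_zero]
    rw [Finset.sum_congr rfl e1, Finset.sum_ite_eq' (BG I z Y) r, if_pos hr]
  · intro i₀
    have e0 : ∀ d ∈ BG I z Y, (if ∀ i, r i ∣ d i then rs i₀ (lG z Y y) d / ∏ i, (d i : ℝ) else 0) =
        if ∀ i, (r i ∣ d i ∧ (i = i₀ → d i = 1)) then lG z Y y d / ∏ i, (d i : ℝ) else 0 := by
      intro d _
      unfold rs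
      by_cases h : ∀ i, r i ∣ d i
      · rw [if_pos h]
        by_cases h' : d i₀ = 1
        · rw [if_pos h', if_pos fun i => ⟨h i, fun hi => hi ▸ h'⟩]
        · rw [if_neg h', if_neg fun h'' => h' ((h'' i₀).2 rfl), zero_div]
      · rw [if_neg h, if_neg fun h'' => h fun i => (h'' i).1]
    rw [Finset.sum_congr rfl e0, ivi_ex I z Y y (fun i a => r i ∣ a ∧ (i = i₀ → a = 1))]
    have hY1 : (1 : ℕ) ∈ RS z Y := iv_dvd (hrR i₀) (one_dvd _)
    -- the product
    have e1 : ∀ s ∈ BG I z Y, (y s / ∏ i, ((s i).totient : ℝ)) *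
        ∏ i, ∑ a ∈ RS z Y, (if (r i ∣ a ∧ (i = i₀ → a = 1)) ∧ a ∣ s i then
          ((μ a : ℤ) : ℝ) else 0) =
        if r i₀ = 1 ∧ ∀ i, i ≠ i₀ → s i = r i then
          (∏ i, ((μ (r i) : ℤ) : ℝ)) * (y s / ∏ i, ((s i).totient : ℝ)) else 0 := by
      intro s hs
      have e2 : ∏ i, ∑ a ∈ RS z Y, (if (r i ∣ a ∧ (i = i₀ → a = 1)) ∧ a ∣ s i then
          ((μ a : ℤ) : ℝ) else 0) =
          ∏ i, (if (i = i₀ → r i = 1) ∧ (i ≠ i₀ → s i = r i) then
            ((μ (r i) : ℤ) : ℝ) else 0) := by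
        refine Finset.prod_congr rfl fun i _ => ?_
        by_cases hi : i = i₀
        · have e3 : ∀ a ∈ RS z Y, (if (r i ∣ a ∧ (i = i₀ → a = 1)) ∧ a ∣ s i then
              ((μ a : ℤ) : ℝ) else 0) = if a = 1 then
              (if r i = 1 then ((μ (r i) : ℤ) : ℝ) else 0) else 0 := by
            intro a _
            by_cases ha : a = 1
            · subst ha
              rw [if_pos rfl]
              by_cases hri : r i = 1
              · rw [if_pos hri, if_pos ⟨⟨hri ▸ dvd_refl _, fun _ => rfl⟩, one_dvd _⟩, hri]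
              · rw [if_neg hri, if_neg]
                rintro ⟨⟨h, -⟩, -⟩
                exact hri (Nat.dvd_one.1 h)
            · rw [if_neg ha, if_neg]
              rintro ⟨⟨-, h⟩, -⟩
              exact ha (h hi)
          rw [Finset.sum_congr rfl e3, Finset.sum_ite_eq' (RS z Y) 1, if_pos hY1]
          by_cases hri : r i = 1
          · rw [if_pos hri, if_pos ⟨fun _ => hri, fun h => absurd hi h⟩]
          · rw [if_neg hri, if_neg fun h => hri (h.1 hi)]
        · have e3 : ∀ a ∈ RS z Y, (if (r i ∣ a ∧ (i = i₀ → a = 1)) ∧ a ∣ s i then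
              ((μ a : ℤ) : ℝ) else 0) = if r i ∣ a ∧ a ∣ s i then ((μ a : ℤ) : ℝ) else 0 := by
            intro a _
            by_cases h : r i ∣ a ∧ a ∣ s i
            · rw [if_pos h, if_pos ⟨⟨h.1, fun h' => absurd h' hi⟩, h.2⟩]
            · rw [if_neg h, if_neg fun h' => h ⟨h'.1.1, h'.2⟩]
          rw [Finset.sum_congr rfl e3, iv_mu z Y (r i) (s i) (Fintype.mem_piFinset.1 hs i)]
          by_cases h : s i = r i
          · rw [if_pos h, if_pos ⟨fun h' => absurd h' hi, fun _ => h⟩]
          · rw [if_neg h, if_neg fun h' => h (h'.2 hi)]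
      rw [e2, ivi_prod]
      by_cases h : r i₀ = 1 ∧ ∀ i, i ≠ i₀ → s i = r i
      · rw [if_pos h, if_pos fun i => ⟨fun hi => hi ▸ h.1, fun hi => h.2 i hi⟩, mul_comm]
      · rw [if_neg h, if_neg, mul_zero]
        intro h'
        exact h ⟨(h' i₀).1 rfl, fun i hi => (h' i).2 hi⟩
    rw [Finset.sum_congr rfl e1]
    by_cases hri : r i₀ = 1
    · rw [if_pos hri]
      rw [Finset.sum_div, Finset.mul_sum]
      symm
      refine Finset.sum_of_injOn (fun a => Function.update r i₀ a) ?_ ?_ ?_ ?_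
      · intro a _ b _ h
        have e2 := congrFun h i₀
        simpa using e2
      · intro a ha
        apply Fintype.mem_piFinset.2
        intro i
        change Function.update r i₀ a i ∈ RS z Y
        by_cases hi : i = i₀
        · subst hi
          rw [Function.update_self]
          exact ha
        · rw [Function.update_of_ne hi]
          exact hrR i
      · intro s hs hnot
        rw [if_neg]
        rintro ⟨-, h⟩
        apply hnot
        refine ⟨s i₀, Fintype.mem_piFinset.1 hs i₀, ?_⟩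
        funext i
        change Function.update r i₀ (s i₀) i = s i
        by_cases hi : i = i₀
        · subst hi
          rw [Function.update_self]
        · rw [Function.update_of_ne hi]
          exact (h i hi).symm
      · intro a _
        rw [if_pos ⟨hri, fun i hi => Function.update_of_ne hi _ _⟩]
        congr 1
        have e2 : ∏ i, ((Function.update r i₀ a i).totient : ℝ) =
            (a.totient : ℝ) * ∏ i, ((r i).totient : ℝ) := by
          rw [← Finset.mul_prod_erase univ _ (mem_univ i₀), Function.update_self,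
            ← Finset.mul_prod_erase univ (fun i => ((r i).totient : ℝ)) (mem_univ i₀), hri,
            Nat.totient_one, Nat.cast_one, one_mul]
          congr 1
          refine Finset.prod_congr rfl fun i hi => ?_
          rw [Function.update_of_ne (Finset.ne_of_mem_erase hi)]
        rw [e2, div_div]
    · rw [if_neg hri]
      apply Finset.sum_eq_zero
      intro s _
      rw [if_neg fun h => hri h.1]

end Pool.Agent.H20.RP
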