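import Pool.Agent.H82.RP.TC

/-!
# Row VCR of the board `rpw_modules`: the crude bound for pairs
-/

set_option autoImplicit false

open Finset Real
open scoped Nat

namespace Pool.Agent.H20.RP

open Pool.Agent.H31.MP (Me)
open Pool.Agent.H82.RP

theorem vcr_ps {m : ℕ} (a : ℕ) (H H' : Finset (Fin m)) : ps a H ∪ ps a H' = ps a (H ∪ H') := by
  unfold ps
  rw [Finset.image_union]

theorem vcr_hs {m : ℕ} {T H : Finset (Fin m)} {K : ℕ} : H ∈ HS T K ↔ H ⊆ T ∧ H.card ≤ K := by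
  unfold HS
  rw [Finset.mem_filter, Finset.mem_powerset]

theorem vcr_pairs {m : ℕ} (T : Finset (Fin m)) (K : ℕ) (F : Finset (Fin m) → ℝ)
    (hF : ∀ U ∈ HS T (2 * K), 0 ≤ F U) :
    ∑ H ∈ HS T K, ∑ H' ∈ HS T K, F (H ∪ H') ≤ 16 ^ K * ∑ U ∈ HS T (2 * K), F U := by
  classical
  rw [← Finset.sum_product', Finset.mul_sum]
  have hmaps : ∀ p ∈ HS T K ×ˢ HS T K, p.1 ∪ p.2 ∈ HS T (2 * K) := by
    intro p hp
    obtain ⟨h1, h2⟩ := Finset.mem_product.1 hp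
    obtain ⟨h3, h4⟩ := vcr_hs.1 h1
    obtain ⟨h5, h6⟩ := vcr_hs.1 h2
    refine vcr_hs.2 ⟨Finset.union_subset h3 h5, ?_⟩
    have := Finset.card_union_le p.1 p.2
    omega
  rw [← Finset.sum_fiberwise_of_maps_to hmaps]
  refine Finset.sum_le_sum fun U hU => ?_
  have e1 : ∑ p ∈ (HS T K ×ˢ HS T K).filter (fun p => p.1 ∪ p.2 = U), F (p.1 ∪ p.2) =
      ((HS T K ×ˢ HS T K).filter (fun p => p.1 ∪ p.2 = U)).card * F U := by
    rw [← nsmul_eq_mul, ← Finset.sum_const]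
    refine Finset.sum_congr rfl fun p hp => ?_
    rw [(Finset.mem_filter.1 hp).2]
  rw [e1]
  refine mul_le_mul_of_nonneg_right ?_ (hF U hU)
  have h1 : ((HS T K ×ˢ HS T K).filter (fun p => p.1 ∪ p.2 = U)) ⊆ U.powerset ×ˢ U.powerset := by
    intro p hp
    have h2 := (Finset.mem_filter.1 hp).2
    rw [Finset.mem_product, Finset.mem_powerset, Finset.mem_powerset, ← h2]
    exact ⟨Finset.subset_union_left, Finset.subset_union_right⟩
  have h3 := Finset.card_le_card h1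
  rw [Finset.card_product, Finset.card_powerset, ← pow_add] at h3
  have h4 : U.card + U.card ≤ 4 * K := by
    have := (vcr_hs.1 hU).2
    omega
  have h5 : (2 : ℕ) ^ (U.card + U.card) ≤ 16 ^ K := by
    calc (2 : ℕ) ^ (U.card + U.card) ≤ 2 ^ (4 * K) := Nat.pow_le_pow_right (by norm_num) h4
      _ = 16 ^ K := by rw [pow_mul]; norm_num
  exact_mod_cast h3.trans h5

theorem vcr_card {m : ℕ} (T : Finset (Fin m)) (K : ℕ) (F : Finset (Fin m) → ℝ) :
    ∑ U ∈ HS T K, F U = ∑ u ∈ range (K + 1), ∑ U ∈ T.powersetCard u, F U := by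
  classical
  have hmaps : ∀ U ∈ HS T K, U.card ∈ range (K + 1) := by
    intro U hU
    exact Finset.mem_range.2 (Nat.lt_succ_of_le (vcr_hs.1 hU).2)
  rw [← Finset.sum_fiberwise_of_maps_to hmaps]
  refine Finset.sum_congr rfl fun u hu => ?_
  refine Finset.sum_congr ?_ fun _ _ => rfl
  ext U
  rw [Finset.mem_filter, Finset.mem_powersetCard, vcr_hs]
  constructor
  · rintro ⟨⟨h1, _⟩, h2⟩
    exact ⟨h1, h2⟩
  · rintro ⟨h1, h2⟩
    exact ⟨⟨h1, h2 ▸ Nat.lt_succ_iff.1 (Finset.mem_range.1 hu)⟩, h2⟩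

theorem pf_VCR (h1 : T_VSU) (h2 : T_VRI) : T_VCR := by
  classical
  intro K
  obtain ⟨y₁, hy₁⟩ := h1 (2 * K) 1 one_pos
  refine ⟨16 ^ K * ((2 * K + 1 : ℕ) * 2 ^ (2 * K)), max y₁ (8 * K + 4), by positivity, ?_⟩
  intro y₀ hy₀ t δ H₀ ht hδ
  obtain ⟨X₀, hX₀⟩ := hy₁ y₀ ((le_max_left _ _).trans hy₀) t δ H₀ ht hδ
  refine ⟨X₀, ?_⟩
  intro X hX S₀ m a T hS hS1 ham htm hT hd
  have hy8 : 8 * K + 4 ≤ y₀ := (le_max_right _ _).trans hy₀
  have hpos : ∀ S : Finset ℕ, S.card ≤ 4 * K → 0 < VS y₀ (X ^ δ) S := by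
    intro S hSc
    obtain ⟨e, he⟩ := Infinite.exists_notMem_finset S
    exact (h2 (4 * K) y₀ (X ^ δ) S e hSc (by omega) he).1
  have hVpos : 0 < VS y₀ (X ^ δ) S₀ := hpos S₀ (by omega)
  have hx : (0 : ℝ) ≤ m * Me (X ^ δ) := by
    apply mul_nonneg (Nat.cast_nonneg m)
    unfold Me
    apply Finset.prod_nonneg
    intro p hp
    have hp2 := (Finset.mem_filter.1 hp).2.two_le
    have hp3 : (2 : ℝ) ≤ p := by exact_mod_cast hp2
    have hp4 : 1 / (p : ℝ) ≤ 1 := by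
      rw [div_le_one (by linarith)]
      linarith
    linarith
  have e0 : ∀ H ∈ HS T K, ∑ H' ∈ HS T K, VS y₀ (X ^ δ) (S₀ ∪ (ps a H ∪ ps a H')) =
      ∑ H' ∈ HS T K, VS y₀ (X ^ δ) (S₀ ∪ ps a (H ∪ H')) := by
    intro H _
    refine Finset.sum_congr rfl fun H' _ => ?_
    rw [vcr_ps]
  rw [Finset.sum_congr rfl e0]
  have e1 := vcr_pairs T K (fun U => VS y₀ (X ^ δ) (S₀ ∪ ps a U)) (by
    intro U hU
    apply le_of_lt
    apply hpos
    have h3 := Finset.card_union_le S₀ (ps a U)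
    have h4 : (ps a U).card ≤ U.card := Finset.card_image_le
    have h5 := (vcr_hs.1 hU).2
    omega)
  refine e1.trans ?_
  rw [vcr_card]
  have e2 : ∀ u ∈ range (2 * K + 1), ∑ U ∈ T.powersetCard u, VS y₀ (X ^ δ) (S₀ ∪ ps a U) ≤
      2 ^ (2 * K) * (1 + m * Me (X ^ δ)) ^ (2 * K) * VS y₀ (X ^ δ) S₀ := by
    intro u hu
    have hu1 : u ≤ 2 * K := Nat.lt_succ_iff.1 (Finset.mem_range.1 hu)
    refine (hX₀ X hX S₀ m a u T hS hu1 hS1 ham htm hT hd).trans ?_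
    refine mul_le_mul_of_nonneg_right ?_ hVpos.le
    set x : ℝ := m * Me (X ^ δ) with hxd
    have h6 : ((1 + 1) * x) ^ u / (u ! : ℝ) ≤ ((1 + 1) * x) ^ u := by
      apply div_le_self (by positivity)
      exact_mod_cast Nat.succ_le_of_lt (Nat.factorial_pos u)
    refine h6.trans ?_
    have h7 : ((1 + 1) * x) ^ u ≤ (2 * (1 + x)) ^ u := by
      apply pow_le_pow_left₀ (by positivity)
      linarith
    refine h7.trans ?_
    rw [← mul_pow]
    apply pow_le_pow_right₀ _ hu1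
    linarith
  have e3 := Finset.sum_le_sum e2
  rw [Finset.sum_const, Finset.card_range, nsmul_eq_mul] at e3
  have e4 : (0 : ℝ) ≤ 16 ^ K := by positivity
  refine (mul_le_mul_of_nonneg_left e3 e4).trans (le_of_eq ?_)
  ring

end Pool.Agent.H20.RP
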